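import Mathlib

/-!
# The Laplacian formula for the IKTU curvature of hypergraphs fails

We follow the definitions of the problem.  The example is the hypergraph on the vertices
`x = 0, y = 1, u = 2, v = 3, z = 4` with hyperedges `{x,u,v}`, `{x,y,v}` (weight `1`) and
`{y,v}`, `{v,z}` (weight `3`).  For it `κ(x,y) = 5/8` and `𝒞(x,y) ≥ 2/3`.

Idea: at the function `f` with normalised values `x = u = 1`, `y = v = 0`, `z = -1` the vertices
`x, u` are tied maximum points of `{x,u,v}`.  Moving `u` up by `λ/8` (which by the Lipschitz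
condition forces `v` to move up by `λ/8` too) makes more of the flow of this hyperedge go
through `u`, without making `y` a minimum point of `{x,y,v}`.  This is invisible for every single
function `f ∈ Lip_{x,y}` but it is seen by the supremum defining `K_λ`.
-/

set_option autoImplicit false

namespace Pool.Agent.Results.MP_da7216_co.Disproof

open Filter Topology

/-- A weighted hypergraph on the vertex set `V`: a finite set `E` of nonempty subsets of `V`
(no repeated hyperedges) and a weight `w e > 0` for every hyperedge `e ∈ E`. -/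
structure WHyp (V : Type) [DecidableEq V] where
  E : Finset (Finset V)
  w : Finset V → ℝ
  nonempty_of_mem : ∀ e ∈ E, e.Nonempty
  w_pos : ∀ e ∈ E, 0 < w e

namespace WHyp

variable {V : Type} [Fintype V] [DecidableEq V] (H : WHyp V)

/-- The adjacency graph: `x ∼ y` if `x ≠ y` and some hyperedge contains both. -/
def graph : SimpleGraph V where
  Adj x y := x ≠ y ∧ ∃ e ∈ H.E, x ∈ e ∧ y ∈ e
  symm := ⟨fun _ _ ⟨hne, e, he, hx, hy⟩ => ⟨hne.symm, e, he, hy, hx⟩⟩
  loopless := ⟨fun _ h => h.1 rfl⟩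

/-- The path distance `d(x,y)` of the adjacency graph. -/
noncomputable def d (x y : V) : ℝ := (H.graph.dist x y : ℝ)

/-- The weighted degree `d_v = ∑_{e ∋ v} w_e`. -/
noncomputable def deg (v : V) : ℝ := ∑ e ∈ H.E.filter (fun e => v ∈ e), H.w e

/-- The weighted inner product `⟨f,g⟩ = ∑_v f(v) g(v) / d_v`. -/
noncomputable def ip (f g : V → ℝ) : ℝ := ∑ v, f v * g v / H.deg v

/-- `δ_x - δ_y`. -/
def dd (x y : V) : V → ℝ := Pi.single x 1 - Pi.single y 1

/-- `B_e = conv {δ_x - δ_y : x, y ∈ e}`. -/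
def B (e : Finset V) : Set (V → ℝ) := convexHull ℝ {b | ∃ x ∈ e, ∃ y ∈ e, b = dd x y}

/-- `b` is a maximiser of `⟨f, ·⟩` over `B_e`. -/
def IsArgmax (f : V → ℝ) (e : Finset V) (b : V → ℝ) : Prop :=
  b ∈ B e ∧ ∀ b' ∈ B e, H.ip f b' ≤ H.ip f b

/-- The (multivalued) hypergraph Laplacian `ℒ f`. -/
def lap (f : V → ℝ) : Set (V → ℝ) :=
  {h | ∃ b : Finset V → V → ℝ, (∀ e ∈ H.E, H.IsArgmax f e (b e)) ∧
    h = ∑ e ∈ H.E, (H.w e * H.ip f (b e)) • b e}

/-- `h = ℒ⁰ f`: the element of least `‖·‖_{D⁻¹}`-norm of `ℒ f`. -/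
def IsLap0 (f h : V → ℝ) : Prop := h ∈ H.lap f ∧ ∀ h' ∈ H.lap f, H.ip h h ≤ H.ip h' h'

/-- `g = J_λ f`, i.e. `f ∈ (I + λ ℒ) g`. -/
def IsResolvent (lam : ℝ) (f g : V → ℝ) : Prop := ∃ h ∈ H.lap g, f = g + lam • h

/-- The weighted 1-Lipschitz functions. -/
def Lip : Set (V → ℝ) := {f | ∀ x y, H.ip f (dd x y) ≤ H.d x y}

/-- `Lip_{x,y}`. -/
def LipXY (x y : V) : Set (V → ℝ) := {f | f ∈ H.Lip ∧ H.ip f (dd x y) = H.d x y}

/-- The `λ`-Kantorovich difference `K_λ(x,y) = sup_{f ∈ Lip} ⟨J_λ f, δ_x - δ_y⟩`. -/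
noncomputable def K (lam : ℝ) (x y : V) : ℝ :=
  sSup {r | ∃ f ∈ H.Lip, ∃ g, H.IsResolvent lam f g ∧ r = H.ip g (dd x y)}

/-- `κ` is the IKTU curvature of `x, y`:
`κ = lim_{λ ↓ 0} (1/λ) (1 - K_λ(x,y)/d(x,y))`. -/
def IsCurvature (x y : V) (κ : ℝ) : Prop :=
  Tendsto (fun lam : ℝ => 1 / lam * (1 - H.K lam x y / H.d x y)) (𝓝[>] 0) (𝓝 κ)

/-- `𝒞(x,y) = (1/d(x,y)) inf_{f ∈ Lip_{x,y}} ⟨ℒ⁰ f, δ_x - δ_y⟩`. -/
noncomputable def C (x y : V) : ℝ :=
  1 / H.d x y * sInf {r | ∃ f ∈ H.LipXY x y, ∃ h, H.IsLap0 f h ∧ r = H.ip h (dd x y)}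

/-! ### General lemmas -/

omit [Fintype V] in
theorem dd_mem_B {e : Finset V} {x y : V} (hx : x ∈ e) (hy : y ∈ e) : dd x y ∈ B e :=
  subset_convexHull ℝ _ ⟨x, hx, y, hy, rfl⟩

omit [Fintype V] in
theorem B_convex (e : Finset V) : Convex ℝ (B e) := convex_convexHull ℝ _

theorem sum_dd (c : V → ℝ) (x y : V) : ∑ v, c v * dd x y v = c x - c y := by
  simp only [dd, Pi.sub_apply, mul_sub, Finset.sum_sub_distrib]
  simp [Pi.single_apply]

/-- Linear functionals on `B_e`. -/
theorem B_le {e : Finset V} (c : V → ℝ) (M : ℝ) (hc : ∀ s ∈ e, ∀ t ∈ e, c s - c t ≤ M)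
    {b : V → ℝ} (hb : b ∈ B e) : ∑ v, c v * b v ≤ M := by
  have hsub : B e ⊆ {b : V → ℝ | ∑ v, c v * b v ≤ M} := by
    apply convexHull_min
    · rintro b ⟨x, hx, y, hy, rfl⟩
      simp only [Set.mem_ofPred_eq, sum_dd]
      exact hc x hx y hy
    · intro b1 h1 b2 h2 s t hs ht hst
      simp only [Set.mem_ofPred_eq] at *
      have : ∑ v, c v * (s • b1 + t • b2) v = s * ∑ v, c v * b1 v + t * ∑ v, c v * b2 v := by
        rw [Finset.mul_sum, Finset.mul_sum, ← Finset.sum_add_distrib]
        refine Finset.sum_congr rfl fun v _ => ?_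
        simp only [Pi.add_apply, Pi.smul_apply, smul_eq_mul]; ring
      rw [this]
      have e1 := mul_le_mul_of_nonneg_left h1 hs
      have e2 := mul_le_mul_of_nonneg_left h2 ht
      have : s * M + t * M = M := by rw [← add_mul, hst, one_mul]
      linarith
  exact hsub hb

/-- Normalised values `f(v)/d_v`. -/
noncomputable def nv (f : V → ℝ) (v : V) : ℝ := f v / H.deg v

theorem ip_eq (f b : V → ℝ) : H.ip f b = ∑ v, H.nv f v * b v := by
  unfold ip nv
  refine Finset.sum_congr rfl fun v _ => ?_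
  ring

theorem ip_dd (f : V → ℝ) (x y : V) : H.ip f (dd x y) = H.nv f x - H.nv f y := by
  rw [ip_eq, sum_dd]

theorem ip_add_right (f b c : V → ℝ) : H.ip f (b + c) = H.ip f b + H.ip f c := by
  unfold ip
  rw [← Finset.sum_add_distrib]
  refine Finset.sum_congr rfl fun v _ => ?_
  simp only [Pi.add_apply]; ring

theorem ip_smul_right (f b : V → ℝ) (s : ℝ) : H.ip f (s • b) = s * H.ip f b := by
  unfold ip
  rw [Finset.mul_sum]
  refine Finset.sum_congr rfl fun v _ => ?_
  simp only [Pi.smul_apply, smul_eq_mul]; ring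

theorem ip_comm (f b : V → ℝ) : H.ip f b = H.ip b f := by
  unfold ip
  refine Finset.sum_congr rfl fun v _ => ?_
  ring

theorem ip_sub_right (f b c : V → ℝ) : H.ip f (b - c) = H.ip f b - H.ip f c := by
  unfold ip
  rw [← Finset.sum_sub_distrib]
  refine Finset.sum_congr rfl fun v _ => ?_
  simp only [Pi.sub_apply]; ring

/-- support of elements of `B_e` -/
theorem B_zero {e : Finset V} {b : V → ℝ} (hb : b ∈ B e) {v : V} (hv : v ∉ e) : b v = 0 := by
  have h1 := B_le (fun u => if u = v then (1:ℝ) else 0) 0 (by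
    intro s hs t ht
    have hsv : s ≠ v := fun h => hv (h ▸ hs)
    have htv : t ≠ v := fun h => hv (h ▸ ht)
    simp [hsv, htv]) hb
  have h2 := B_le (fun u => if u = v then (-1:ℝ) else 0) 0 (by
    intro s hs t ht
    have hsv : s ≠ v := fun h => hv (h ▸ hs)
    have htv : t ≠ v := fun h => hv (h ▸ ht)
    simp [hsv, htv]) hb
  simp at h1 h2
  linarith

theorem B_sum {e : Finset V} {b : V → ℝ} (hb : b ∈ B e) : ∑ v, b v = 0 := by
  have h1 := B_le (fun _ => (1:ℝ)) 0 (by intro s _ t _; simp) hb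
  have h2 := B_le (fun _ => (-1:ℝ)) 0 (by intro s _ t _; simp) hb
  simp at h1 h2
  linarith

theorem B_le_one {e : Finset V} {b : V → ℝ} (hb : b ∈ B e) (v : V) : b v ≤ 1 := by
  have h1 := B_le (fun u => if u = v then (1:ℝ) else 0) 1 (by
    intro s hs t ht
    by_cases hsv : s = v <;> by_cases htv : t = v <;> simp [hsv, htv]) hb
  simpa using h1

theorem neg_one_le_B {e : Finset V} {b : V → ℝ} (hb : b ∈ B e) (v : V) : -1 ≤ b v := by
  have h1 := B_le (fun u => if u = v then (-1:ℝ) else 0) 1 (by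
    intro s hs t ht
    by_cases hsv : s = v <;> by_cases htv : t = v <;> simp [hsv, htv]) hb
  simp at h1
  linarith

section argmax

variable {H} {f b : V → ℝ} {e : Finset V}

theorem IsArgmax.diff_le (h : H.IsArgmax f e b) {s t : V} (hs : s ∈ e) (ht : t ∈ e) :
    H.nv f s - H.nv f t ≤ H.ip f b := by
  rw [← ip_dd]; exact h.2 _ (dd_mem_B hs ht)

theorem IsArgmax.le_of (h : H.IsArgmax f e b) {M : ℝ}
    (hM : ∀ s ∈ e, ∀ t ∈ e, H.nv f s - H.nv f t ≤ M) : H.ip f b ≤ M := by
  rw [ip_eq]; exact B_le _ _ hM h.1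

theorem IsArgmax.nonpos_of_lt (h : H.IsArgmax f e b) {v s : V} (hv : v ∈ e) (hs : s ∈ e)
    (hlt : H.nv f v < H.nv f s) : b v ≤ 0 := by
  have h1 := B_le (fun u => H.nv f u + if u = v then (H.nv f s - H.nv f v) else 0) (H.ip f b) (by
    intro a ha c hc
    by_cases hav : a = v <;> by_cases hcv : c = v
    · subst hav; subst hcv
      have := h.diff_le hs hs
      simp at this ⊢; exact this
    · subst hav
      have := h.diff_le hs hc
      simp [hcv]; linarith
    · subst hcv
      have h1 := h.diff_le ha hs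
      have h2 := h.diff_le hs hs
      simp [hav]; linarith
    · have := h.diff_le ha hc
      simp [hav, hcv]; linarith) h.1
  have h2 : ∑ u, (H.nv f u + if u = v then (H.nv f s - H.nv f v) else 0) * b u
      = H.ip f b + (H.nv f s - H.nv f v) * b v := by
    rw [ip_eq]
    simp only [add_mul, Finset.sum_add_distrib]
    simp
  rw [h2] at h1
  by_contra hcon
  push Not at hcon
  have : 0 < (H.nv f s - H.nv f v) * b v := mul_pos (by linarith) hcon
  linarith

theorem IsArgmax.nonneg_of_lt (h : H.IsArgmax f e b) {v s : V} (hv : v ∈ e) (hs : s ∈ e)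
    (hlt : H.nv f s < H.nv f v) : 0 ≤ b v := by
  have h1 := B_le (fun u => H.nv f u + if u = v then (H.nv f s - H.nv f v) else 0) (H.ip f b) (by
    intro a ha c hc
    by_cases hav : a = v <;> by_cases hcv : c = v
    · subst hav; subst hcv
      have := h.diff_le hs hs
      simp at this ⊢; exact this
    · subst hav
      have := h.diff_le hs hc
      simp [hcv]; linarith
    · subst hcv
      have h1 := h.diff_le ha hs
      have h2 := h.diff_le hs hs
      simp [hav]; linarith
    · have := h.diff_le ha hc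
      simp [hav, hcv]; linarith) h.1
  have h2 : ∑ u, (H.nv f u + if u = v then (H.nv f s - H.nv f v) else 0) * b u
      = H.ip f b + (H.nv f s - H.nv f v) * b v := by
    rw [ip_eq]
    simp only [add_mul, Finset.sum_add_distrib]
    simp
  rw [h2] at h1
  by_contra hcon
  push Not at hcon
  have : 0 < (H.nv f s - H.nv f v) * b v := mul_pos_of_neg_of_neg (by linarith) hcon
  linarith

/-- a unique maximum point carries the whole positive mass -/
theorem IsArgmax.eq_one (h : H.IsArgmax f e b) {v r : V} (hv : v ∈ e) (hr : r ∈ e) (hrv : r ≠ v)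
    {ε : ℝ} (hε : 0 < ε) (hmax : ∀ s ∈ e, s ≠ v → H.nv f s ≤ H.nv f v - ε) : b v = 1 := by
  have hle := B_le_one h.1 v
  have hI : ε ≤ H.ip f b := by
    have := h.diff_le hv hr
    have := hmax r hr hrv
    linarith
  have h1 := B_le (fun u => H.nv f u + if u = v then (-ε) else 0) (H.ip f b - ε) (by
    intro a ha c hc
    by_cases hav : a = v <;> by_cases hcv : c = v
    · subst hav; subst hcv; simp; exact hI
    · subst hav
      have := h.diff_le hv hc
      simp [hcv]; linarith
    · subst hcv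
      have := hmax a ha hav
      simp [hav]; linarith
    · have h3 := h.diff_le hv hc
      have := hmax a ha hav
      simp [hav, hcv]; linarith) h.1
  have h2 : ∑ u, (H.nv f u + if u = v then (-ε) else 0) * b u
      = H.ip f b - ε * b v := by
    rw [ip_eq]
    simp only [add_mul, Finset.sum_add_distrib]
    simp; ring
  rw [h2] at h1
  have : 1 ≤ b v := by
    by_contra hcon
    push Not at hcon
    nlinarith
  linarith

/-- a unique minimum point carries the whole negative mass -/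
theorem IsArgmax.eq_neg_one (h : H.IsArgmax f e b) {v r : V} (hv : v ∈ e) (hr : r ∈ e)
    (hrv : r ≠ v) {ε : ℝ} (hε : 0 < ε) (hmin : ∀ s ∈ e, s ≠ v → H.nv f v + ε ≤ H.nv f s) :
    b v = -1 := by
  have hle := neg_one_le_B h.1 v
  have hI : ε ≤ H.ip f b := by
    have := h.diff_le hr hv
    have := hmin r hr hrv
    linarith
  have h1 := B_le (fun u => H.nv f u + if u = v then ε else 0) (H.ip f b - ε) (by
    intro a ha c hc
    by_cases hav : a = v <;> by_cases hcv : c = v
    · subst hav; subst hcv; simp; exact hI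
    · subst hav
      have := hmin c hc hcv
      simp [hcv]; linarith
    · subst hcv
      have := h.diff_le ha hv
      simp [hav]; linarith
    · have h3 := h.diff_le ha hv
      have := hmin c hc hcv
      simp [hav, hcv]; linarith) h.1
  have h2 : ∑ u, (H.nv f u + if u = v then ε else 0) * b u
      = H.ip f b + ε * b v := by
    rw [ip_eq]
    simp only [add_mul, Finset.sum_add_distrib]
    simp
  rw [h2] at h1
  have : b v ≤ -1 := by
    by_contra hcon
    push Not at hcon
    nlinarith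
  linarith

end argmax

omit [Fintype V] in
theorem B_convex_comb {e : Finset V} {b c : V → ℝ} (hb : b ∈ B e) (hc : c ∈ B e) {t : ℝ}
    (h0 : 0 ≤ t) (h1 : t ≤ 1) : b + t • (c - b) ∈ B e := by
  have := (B_convex e) hb hc (sub_nonneg.2 h1) h0 (by ring)
  convert this using 1
  funext v
  simp only [Pi.add_apply, Pi.smul_apply, Pi.sub_apply, smul_eq_mul]
  ring

/-- First order optimality of the least norm element, one hyperedge at a time. -/
theorem opt {f h : V → ℝ} {b : Finset V → V → ℝ}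
    (hb : ∀ e ∈ H.E, H.IsArgmax f e (b e))
    (hh : h = ∑ e ∈ H.E, (H.w e * H.ip f (b e)) • b e)
    (hmin : ∀ h' ∈ H.lap f, H.ip h h ≤ H.ip h' h')
    {e : Finset V} (he : e ∈ H.E) {c : V → ℝ} (hc : H.IsArgmax f e c) :
    0 ≤ (H.w e * H.ip f (b e)) * (H.ip h c - H.ip h (b e)) := by
  set s : ℝ := H.w e * H.ip f (b e) with hs
  set u : V → ℝ := c - b e with hu
  have heq : H.ip f c = H.ip f (b e) := le_antisymm ((hb e he).2 c hc.1) (hc.2 _ (hb e he).1)
  have key : ∀ t : ℝ, 0 ≤ t → t ≤ 1 → H.ip h h ≤ H.ip (h + (t * s) • u) (h + (t * s) • u) := by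
    intro t h0 h1
    apply hmin
    refine ⟨Function.update b e (b e + t • u), ?_, ?_⟩
    · intro e' he'
      by_cases hee : e' = e
      · subst hee
        simp only [Function.update_self]
        refine ⟨B_convex_comb (hb e' he').1 hc.1 h0 h1, ?_⟩
        intro b' hb'
        rw [ip_add_right, ip_smul_right, hu, ip_sub_right, heq]
        have := (hb e' he').2 b' hb'
        linarith
      · simp only [Function.update_of_ne hee]
        exact hb e' he'
    · rw [hh]
      rw [← Finset.add_sum_erase _ _ he, ← Finset.add_sum_erase _ _ he]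
      have h2 : ∑ x ∈ H.E.erase e, (H.w x * H.ip f (Function.update b e (b e + t • u) x)) •
          Function.update b e (b e + t • u) x
          = ∑ x ∈ H.E.erase e, (H.w x * H.ip f (b x)) • b x := by
        refine Finset.sum_congr rfl fun x hx => ?_
        rw [Function.update_of_ne (Finset.ne_of_mem_erase hx)]
      rw [h2]
      simp only [Function.update_self]
      have h3 : H.ip f (b e + t • u) = H.ip f (b e) := by
        rw [ip_add_right, ip_smul_right, hu, ip_sub_right, heq]; ring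
      rw [h3, ← hs]
      funext v
      simp only [Pi.add_apply, Pi.smul_apply, smul_eq_mul]
      ring
  have hexp : ∀ t : ℝ, H.ip (h + (t * s) • u) (h + (t * s) • u)
      = H.ip h h + 2 * t * (s * H.ip h u) + t ^ 2 * (s ^ 2 * H.ip u u) := by
    intro t
    rw [ip_add_right, ip_smul_right, ip_comm H (h + (t * s) • u) h,
      ip_comm H (h + (t * s) • u) u, ip_add_right, ip_add_right, ip_smul_right, ip_smul_right,
      ip_comm H u h]
    ring
  have hu2 : H.ip h u = H.ip h c - H.ip h (b e) := by rw [hu, ip_sub_right]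
  rw [← hu2]
  by_contra hcon
  push Not at hcon
  set A : ℝ := s * H.ip h u
  set D : ℝ := s ^ 2 * H.ip u u
  have hk : ∀ t : ℝ, 0 ≤ t → t ≤ 1 → 0 ≤ 2 * t * A + t ^ 2 * D := by
    intro t h0 h1
    have := key t h0 h1
    rw [hexp] at this
    linarith
  have hD : 0 < D := by
    have := hk 1 (by norm_num) (by norm_num)
    nlinarith
  -- choose a small t
  have hA : 0 < -A := by linarith
  by_cases hle : -A ≤ D
  · have := hk (-A / D) (by positivity) (by rw [div_le_one hD]; exact hle)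
    have h4 : 2 * (-A / D) * A + (-A / D) ^ 2 * D = -(A ^ 2 / D) := by
      field_simp; ring
    rw [h4] at this
    have : 0 < A ^ 2 / D := div_pos (by nlinarith) hD
    linarith
  · have := hk 1 (by norm_num) (by norm_num)
    nlinarith

end WHyp


/-- The flow of a maximiser over a hyperedge with three vertices of values `P,Q,R`. -/
structure TriF (P Q R I p q r : ℝ) : Prop where
  sum0 : p + q + r = 0
  pI : p ≤ I
  qI : q ≤ I
  rI : r ≤ I
  pI' : -I ≤ p
  qI' : -I ≤ q
  rI' : -I ≤ r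
  PQ : P - Q ≤ I
  QP : Q - P ≤ I
  PR : P - R ≤ I
  RP : R - P ≤ I
  QR : Q - R ≤ I
  RQ : R - Q ≤ I
  e1 : Q ≤ P → R ≤ Q → I = P - R
  e2 : R ≤ P → Q ≤ R → I = P - Q
  e3 : P ≤ Q → R ≤ P → I = Q - R
  e4 : R ≤ Q → P ≤ R → I = Q - P
  e5 : P ≤ R → Q ≤ P → I = R - Q
  e6 : Q ≤ R → P ≤ Q → I = R - P
  p1 : P < Q → p ≤ 0
  p2 : P < R → p ≤ 0
  p3 : Q < P → 0 ≤ p
  p4 : R < P → 0 ≤ p
  q1 : Q < P → q ≤ 0
  q2 : Q < R → q ≤ 0
  q3 : P < Q → 0 ≤ q
  q4 : R < Q → 0 ≤ q
  r1 : R < P → r ≤ 0
  r2 : R < Q → r ≤ 0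
  r3 : P < R → 0 ≤ r
  r4 : Q < R → 0 ≤ r
  up : Q < P → R < P → p = I
  uq : P < Q → R < Q → q = I
  ur : P < R → Q < R → r = I
  dp : P < Q → P < R → p = -I
  dq : Q < P → Q < R → q = -I
  dr : R < P → R < Q → r = -I

theorem core {l Gx Gy G1 G2 Gb I1 ax a1 a2 I2 cx cy c2 D : ℝ} (hl0 : 0 < l) (hl : l ≤ 1/10)
    (T1 : TriF Gx G1 G2 I1 ax a1 a2) (T2 : TriF Gx Gy G2 I2 cx cy c2)
    (hxy : (Gx + l * ((ax + cx) / 2)) - (Gy + l * ((cy + 3 * (Gy - G2)) / 4)) ≤ 1)
    (h12 : (G1 + l * a1) - (G2 + l * ((a2 + c2 + 3 * (G2 - Gy) + 3 * (G2 - Gb)) / 8)) ≤ 1)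
    (h2y : (G2 + l * ((a2 + c2 + 3 * (G2 - Gy) + 3 * (G2 - Gb)) / 8))
      - (Gy + l * ((cy + 3 * (Gy - G2)) / 4)) ≤ 1)
    (hη : G2 - Gb ≤ D) (hη' : -D ≤ G2 - Gb) (hI1 : I1 ≤ D) (hD : D ≤ 1 + 4 * l) :
    Gx - Gy ≤ 1 - 5 / 8 * l + l ^ 2 := by
  have hl2 : l ^ 2 ≤ l / 10 := by nlinarith
  have hl2' : 0 < l ^ 2 := by positivity
  have hl3' : 0 < l ^ 3 := by positivity
  have hl3 : l ^ 3 ≤ l ^ 2 / 10 := by nlinarith
  by_contra hcon
  push Not at hcon
  have hpos : Gy < Gx := by linarith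
  have hη1 : l * (G2 - Gb) ≤ l * (1 + 4 * l) := by
    apply mul_le_mul_of_nonneg_left _ hl0.le; linarith
  have hη2 : - (l * (1 + 4 * l)) ≤ l * (G2 - Gb) := by
    have : l * (-(1 + 4 * l)) ≤ l * (G2 - Gb) := by
      apply mul_le_mul_of_nonneg_left _ hl0.le; linarith
    linarith
  have hI1' : l * I1 ≤ l * (1 + 4 * l) := by
    apply mul_le_mul_of_nonneg_left _ hl0.le; linarith
  have hla : l * (1 - 5 / 8 * l + l ^ 2) < l * (Gx - Gy) := by
    apply mul_lt_mul_of_pos_left hcon hl0
  rcases lt_trichotomy G2 Gy with ht | ht | ht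
  · -- case 5
    have hc2 := T2.dr (by linarith) (by linarith)
    have hcx := T2.up (by linarith) (by linarith)
    have hI2 := T2.e1 (by linarith) (by linarith)
    have hcy : cy = 0 := by have := T2.sum0; linarith
    have hlt : l * G2 < l * Gy := mul_lt_mul_of_pos_left ht hl0
    rcases lt_trichotomy G1 Gx with hs | hs | hs
    · have hax := T1.up hs (by linarith)
      have h5 : l * (Gx - G2) ≤ l * I1 := mul_le_mul_of_nonneg_left T1.PR hl0.le
      subst hax; subst hcx; subst hcy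
      rw [hI2] at hxy
      linarith
    · have ha2 := T1.dr (by linarith) (by linarith)
      have hI := T1.e1 (by linarith) (by linarith)
      have hax : ax = I1 - a1 := by have := T1.sum0; linarith
      subst hax; subst hcx; subst hcy; subst ha2; subst hc2; subst hs
      rw [hI2] at hxy h12
      rw [hI] at hxy h12
      linarith
    · have ha1 := T1.uq (by linarith) (by linarith)
      have ha2 := T1.dr (by linarith) (by linarith)
      have hI := T1.e3 (by linarith) (by linarith)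
      subst ha1; subst ha2; subst hc2
      rw [hI2, hI] at h12
      have : l * Gx < l * G1 := mul_lt_mul_of_pos_left hs hl0
      linarith
  · -- case 4
    subst ht
    have hcx := T2.up (by linarith) (by linarith)
    have hI2 := T2.e1 (by linarith) (by linarith)
    have hcy0 := T2.q1 (by linarith)
    have hc20 := T2.r1 (by linarith)
    have hlcy : l * cy ≤ 0 := mul_nonpos_of_nonneg_of_nonpos hl0.le hcy0
    have hlc2 : l * c2 ≤ 0 := mul_nonpos_of_nonneg_of_nonpos hl0.le hc20
    have hc2 : c2 = -I2 - cy := by have := T2.sum0; linarith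
    rcases lt_trichotomy G1 Gx with hs | hs | hs
    · have hax := T1.up hs (by linarith)
      have h5 : l * (Gx - G2) ≤ l * I1 := mul_le_mul_of_nonneg_left T1.PR hl0.le
      subst hax; subst hcx
      rw [hI2] at hxy
      linarith
    · have ha2 := T1.dr (by linarith) (by linarith)
      have hI := T1.e1 (by linarith) (by linarith)
      have hax : ax = I1 - a1 := by have := T1.sum0; linarith
      subst hax; subst hcx; subst ha2; subst hs; subst hc2
      rw [hI2] at hxy h12
      rw [hI] at hxy h12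
      linarith
    · have ha1 := T1.uq (by linarith) (by linarith)
      have ha2 := T1.dr (by linarith) (by linarith)
      have hI := T1.e3 (by linarith) (by linarith)
      subst ha1; subst ha2
      rw [hI] at h12
      have : l * Gx < l * G1 := mul_lt_mul_of_pos_left hs hl0
      linarith
  · have hcy := T2.dq (by linarith) (by linarith)
    have hlt : l * Gy < l * G2 := mul_lt_mul_of_pos_left ht hl0
    rcases lt_trichotomy G2 Gx with hs | hs | hs
    · -- case 1
      have hcx := T2.up (by linarith) (by linarith)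
      have hI2 := T2.e2 (by linarith) (by linarith)
      have hax := T1.p4 (by linarith)
      have h5 : 0 ≤ l * ax := mul_nonneg hl0.le hax
      subst hcx; subst hcy
      rw [hI2] at hxy
      linarith
    · -- case 2
      subst hs
      have hI2 := T2.e2 (by linarith) (by linarith)
      have hc2 := T2.r4 (by linarith)
      have h5 : 0 ≤ l * c2 := mul_nonneg hl0.le hc2
      have h6 : -(l * I1) ≤ l * a2 := by
        have := mul_le_mul_of_nonneg_left T1.rI' hl0.le
        linarith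
      subst hcy
      rw [hI2] at h2y
      linarith
    · -- case 3
      have hc2 := T2.ur (by linarith) (by linarith)
      have hI2 := T2.e5 (by linarith) (by linarith)
      have ha2 := T1.r3 (by linarith)
      have h5 : 0 ≤ l * a2 := mul_nonneg hl0.le ha2
      have h6 : l * Gx < l * G2 := mul_lt_mul_of_pos_left hs hl0
      subst hcy; subst hc2
      rw [hI2] at h2y
      linarith

section tri

open WHyp

variable {V : Type} [Fintype V] [DecidableEq V] {H : WHyp V} {f b : V → ℝ}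

theorem tri_of {p q r : V} (hpq : p ≠ q) (hpr : p ≠ r) (hqr : q ≠ r)
    (h : H.IsArgmax f {p, q, r} b) :
    TriF (H.nv f p) (H.nv f q) (H.nv f r) (H.ip f b)
      (H.ip f b * b p) (H.ip f b * b q) (H.ip f b * b r) := by
  have mp : p ∈ ({p, q, r} : Finset V) := by simp
  have mq : q ∈ ({p, q, r} : Finset V) := by simp
  have mr : r ∈ ({p, q, r} : Finset V) := by simp
  have hI : 0 ≤ H.ip f b := by
    have := h.diff_le mp mp
    linarith
  have hsum : b p + b q + b r = 0 := by
    have h1 := B_sum h.1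
    have h2 : ∑ v ∈ ({p, q, r} : Finset V), b v = ∑ v, b v := by
      apply Finset.sum_subset (Finset.subset_univ _)
      intro v _ hv
      exact B_zero h.1 hv
    rw [← h2, Finset.sum_insert (by simp [hpq, hpr]), Finset.sum_insert (by simp [hqr]),
      Finset.sum_singleton] at h1
    linarith
  have hall : ∀ {M : ℝ}, H.nv f p - H.nv f q ≤ M → H.nv f q - H.nv f p ≤ M →
      H.nv f p - H.nv f r ≤ M → H.nv f r - H.nv f p ≤ M → H.nv f q - H.nv f r ≤ M →
      H.nv f r - H.nv f q ≤ M → 0 ≤ M → H.ip f b ≤ M := by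
    intro M h1 h2 h3 h4 h5 h6 h7
    apply h.le_of
    intro s hs t ht
    simp only [Finset.mem_insert, Finset.mem_singleton] at hs ht
    rcases hs with rfl | rfl | rfl <;> rcases ht with rfl | rfl | rfl <;> first | assumption | simpa
  constructor
  · rw [← mul_add, ← mul_add, hsum, mul_zero]
  · have := mul_le_mul_of_nonneg_left (B_le_one h.1 p) hI; linarith
  · have := mul_le_mul_of_nonneg_left (B_le_one h.1 q) hI; linarith
  · have := mul_le_mul_of_nonneg_left (B_le_one h.1 r) hI; linarith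
  · have := mul_le_mul_of_nonneg_left (neg_one_le_B h.1 p) hI; linarith
  · have := mul_le_mul_of_nonneg_left (neg_one_le_B h.1 q) hI; linarith
  · have := mul_le_mul_of_nonneg_left (neg_one_le_B h.1 r) hI; linarith
  · exact h.diff_le mp mq
  · exact h.diff_le mq mp
  · exact h.diff_le mp mr
  · exact h.diff_le mr mp
  · exact h.diff_le mq mr
  · exact h.diff_le mr mq
  · intro h1 h2
    exact le_antisymm (hall (by linarith) (by linarith) (by linarith) (by linarith) (by linarith)
      (by linarith) (by linarith)) (h.diff_le mp mr)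
  · intro h1 h2
    exact le_antisymm (hall (by linarith) (by linarith) (by linarith) (by linarith) (by linarith)
      (by linarith) (by linarith)) (h.diff_le mp mq)
  · intro h1 h2
    exact le_antisymm (hall (by linarith) (by linarith) (by linarith) (by linarith) (by linarith)
      (by linarith) (by linarith)) (h.diff_le mq mr)
  · intro h1 h2
    exact le_antisymm (hall (by linarith) (by linarith) (by linarith) (by linarith) (by linarith)
      (by linarith) (by linarith)) (h.diff_le mq mp)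
  · intro h1 h2
    exact le_antisymm (hall (by linarith) (by linarith) (by linarith) (by linarith) (by linarith)
      (by linarith) (by linarith)) (h.diff_le mr mq)
  · intro h1 h2
    exact le_antisymm (hall (by linarith) (by linarith) (by linarith) (by linarith) (by linarith)
      (by linarith) (by linarith)) (h.diff_le mr mp)
  · exact fun hlt => mul_nonpos_of_nonneg_of_nonpos hI (h.nonpos_of_lt mp mq hlt)
  · exact fun hlt => mul_nonpos_of_nonneg_of_nonpos hI (h.nonpos_of_lt mp mr hlt)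
  · exact fun hlt => mul_nonneg hI (h.nonneg_of_lt mp mq hlt)
  · exact fun hlt => mul_nonneg hI (h.nonneg_of_lt mp mr hlt)
  · exact fun hlt => mul_nonpos_of_nonneg_of_nonpos hI (h.nonpos_of_lt mq mp hlt)
  · exact fun hlt => mul_nonpos_of_nonneg_of_nonpos hI (h.nonpos_of_lt mq mr hlt)
  · exact fun hlt => mul_nonneg hI (h.nonneg_of_lt mq mp hlt)
  · exact fun hlt => mul_nonneg hI (h.nonneg_of_lt mq mr hlt)
  · exact fun hlt => mul_nonpos_of_nonneg_of_nonpos hI (h.nonpos_of_lt mr mp hlt)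
  · exact fun hlt => mul_nonpos_of_nonneg_of_nonpos hI (h.nonpos_of_lt mr mq hlt)
  · exact fun hlt => mul_nonneg hI (h.nonneg_of_lt mr mp hlt)
  · exact fun hlt => mul_nonneg hI (h.nonneg_of_lt mr mq hlt)
  · intro h1 h2
    rw [h.eq_one mp mq hpq.symm (ε := min (H.nv f p - H.nv f q) (H.nv f p - H.nv f r))
      (lt_min (by linarith) (by linarith)), mul_one]
    intro s hs hne
    simp only [Finset.mem_insert, Finset.mem_singleton] at hs
    rcases hs with rfl | rfl | rfl
    · exact absurd rfl hne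
    · have := min_le_left (H.nv f p - H.nv f s) (H.nv f p - H.nv f r); linarith
    · have := min_le_right (H.nv f p - H.nv f q) (H.nv f p - H.nv f s); linarith
  · intro h1 h2
    rw [h.eq_one mq mp hpq (ε := min (H.nv f q - H.nv f p) (H.nv f q - H.nv f r))
      (lt_min (by linarith) (by linarith)), mul_one]
    intro s hs hne
    simp only [Finset.mem_insert, Finset.mem_singleton] at hs
    rcases hs with rfl | rfl | rfl
    · have := min_le_left (H.nv f q - H.nv f s) (H.nv f q - H.nv f r); linarith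
    · exact absurd rfl hne
    · have := min_le_right (H.nv f q - H.nv f p) (H.nv f q - H.nv f s); linarith
  · intro h1 h2
    rw [h.eq_one mr mp hpr (ε := min (H.nv f r - H.nv f p) (H.nv f r - H.nv f q))
      (lt_min (by linarith) (by linarith)), mul_one]
    intro s hs hne
    simp only [Finset.mem_insert, Finset.mem_singleton] at hs
    rcases hs with rfl | rfl | rfl
    · have := min_le_left (H.nv f r - H.nv f s) (H.nv f r - H.nv f q); linarith
    · have := min_le_right (H.nv f r - H.nv f p) (H.nv f r - H.nv f s); linarith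
    · exact absurd rfl hne
  · intro h1 h2
    rw [h.eq_neg_one mp mq hpq.symm (ε := min (H.nv f q - H.nv f p) (H.nv f r - H.nv f p))
      (lt_min (by linarith) (by linarith)), mul_neg_one]
    intro s hs hne
    simp only [Finset.mem_insert, Finset.mem_singleton] at hs
    rcases hs with rfl | rfl | rfl
    · exact absurd rfl hne
    · have := min_le_left (H.nv f s - H.nv f p) (H.nv f r - H.nv f p); linarith
    · have := min_le_right (H.nv f q - H.nv f p) (H.nv f s - H.nv f p); linarith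
  · intro h1 h2
    rw [h.eq_neg_one mq mp hpq (ε := min (H.nv f p - H.nv f q) (H.nv f r - H.nv f q))
      (lt_min (by linarith) (by linarith)), mul_neg_one]
    intro s hs hne
    simp only [Finset.mem_insert, Finset.mem_singleton] at hs
    rcases hs with rfl | rfl | rfl
    · have := min_le_left (H.nv f s - H.nv f q) (H.nv f r - H.nv f q); linarith
    · exact absurd rfl hne
    · have := min_le_right (H.nv f p - H.nv f q) (H.nv f s - H.nv f q); linarith
  · intro h1 h2
    rw [h.eq_neg_one mr mp hpr (ε := min (H.nv f p - H.nv f r) (H.nv f q - H.nv f r))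
      (lt_min (by linarith) (by linarith)), mul_neg_one]
    intro s hs hne
    simp only [Finset.mem_insert, Finset.mem_singleton] at hs
    rcases hs with rfl | rfl | rfl
    · have := min_le_left (H.nv f s - H.nv f r) (H.nv f q - H.nv f r); linarith
    · have := min_le_right (H.nv f p - H.nv f r) (H.nv f s - H.nv f r); linarith
    · exact absurd rfl hne

theorem pair_of {p q : V} (hpq : p ≠ q) (h : H.IsArgmax f {p, q} b) :
    H.ip f b * b p = H.nv f p - H.nv f q ∧ H.ip f b * b q = H.nv f q - H.nv f p ∧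
    H.nv f p - H.nv f q ≤ H.ip f b ∧ H.nv f q - H.nv f p ≤ H.ip f b ∧
    (H.ip f b = H.nv f p - H.nv f q ∨ H.ip f b = H.nv f q - H.nv f p) := by
  have mp : p ∈ ({p, q} : Finset V) := by simp
  have mq : q ∈ ({p, q} : Finset V) := by simp
  have h1 := h.diff_le mp mq
  have h2 := h.diff_le mq mp
  have hall : ∀ {M : ℝ}, H.nv f p - H.nv f q ≤ M → H.nv f q - H.nv f p ≤ M → 0 ≤ M →
      H.ip f b ≤ M := by
    intro M h1 h2 h7
    apply h.le_of
    intro s hs t ht
    simp only [Finset.mem_insert, Finset.mem_singleton] at hs ht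
    rcases hs with rfl | rfl <;> rcases ht with rfl | rfl <;> first | assumption | simpa
  have hsum : b p + b q = 0 := by
    have h1 := B_sum h.1
    have h2 : ∑ v ∈ ({p, q} : Finset V), b v = ∑ v, b v := by
      apply Finset.sum_subset (Finset.subset_univ _)
      intro v _ hv
      exact B_zero h.1 hv
    rw [← h2, Finset.sum_insert (by simp [hpq]), Finset.sum_singleton] at h1
    linarith
  rcases lt_trichotomy (H.nv f p) (H.nv f q) with hlt | heq | hlt
  · have hI : H.ip f b = H.nv f q - H.nv f p :=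
      le_antisymm (hall (by linarith) (by linarith) (by linarith)) h2
    have hb : b q = 1 := h.eq_one mq mp hpq (ε := H.nv f q - H.nv f p) (by linarith) (by
      intro s hs hne
      simp only [Finset.mem_insert, Finset.mem_singleton] at hs
      rcases hs with rfl | rfl
      · linarith
      · exact absurd rfl hne)
    have hb' : b p = -1 := by linarith
    rw [hb, hb', hI]
    refine ⟨by ring, by ring, by linarith, by linarith, Or.inr rfl⟩
  · have hI : H.ip f b = 0 := le_antisymm (hall (by linarith) (by linarith) le_rfl) (by linarith)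
    rw [hI]
    refine ⟨by linarith, by linarith, by linarith, by linarith, Or.inl (by linarith)⟩
  · have hI : H.ip f b = H.nv f p - H.nv f q :=
      le_antisymm (hall (by linarith) (by linarith) (by linarith)) h1
    have hb : b p = 1 := h.eq_one mp mq hpq.symm (ε := H.nv f p - H.nv f q) (by linarith) (by
      intro s hs hne
      simp only [Finset.mem_insert, Finset.mem_singleton] at hs
      rcases hs with rfl | rfl
      · exact absurd rfl hne
      · linarith)
    have hb' : b q = -1 := by linarith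
    rw [hb, hb', hI]
    refine ⟨by ring, by ring, by linarith, by linarith, Or.inl rfl⟩

/-- every difference `⟨f, δ_s - δ_t⟩` over a hyperedge is at most the maximum, and the maximum is
attained by such a difference -/
theorem attained {e : Finset V} (he : e.Nonempty) (h : H.IsArgmax f e b) :
    ∃ s ∈ e, ∃ t ∈ e, H.ip f b = H.nv f s - H.nv f t := by
  obtain ⟨s, hs, hs'⟩ := e.exists_max_image (H.nv f) he
  obtain ⟨t, ht, ht'⟩ := e.exists_min_image (H.nv f) he
  refine ⟨s, hs, t, ht, le_antisymm ?_ (h.diff_le hs ht)⟩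
  apply h.le_of
  intro a ha c hc
  have := hs' a ha
  have := ht' c hc
  linarith

end tri

/-! ### The example -/

open WHyp

abbrev e1 : Finset (Fin 5) := {0, 2, 3}
abbrev e2 : Finset (Fin 5) := {0, 1, 3}
abbrev e3 : Finset (Fin 5) := {1, 3}
abbrev e4 : Finset (Fin 5) := {3, 4}

/-- The example: vertices `x = 0`, `y = 1`, `2`, `3`, `4`; hyperedges `{0,2,3}` and `{0,1,3}` of
weight `1`, and `{1,3}`, `{3,4}` of weight `3`. -/
noncomputable def Hex : WHyp (Fin 5) where
  E := {e1, e2, e3, e4}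
  w := fun e => if e.card = 3 then 1 else 3
  nonempty_of_mem := by decide
  w_pos := by intro e _; split_ifs <;> norm_num

theorem sum_E {M : Type} [AddCommMonoid M] (φ : Finset (Fin 5) → M) :
    ∑ e ∈ Hex.E, φ e = φ e1 + (φ e2 + (φ e3 + φ e4)) := by
  change ∑ e ∈ ({e1, e2, e3, e4} : Finset (Finset (Fin 5))), φ e = _
  rw [Finset.sum_insert (by decide), Finset.sum_insert (by decide), Finset.sum_insert (by decide),
    Finset.sum_singleton]

theorem w1 : Hex.w e1 = 1 := by simp [Hex]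
theorem w2 : Hex.w e2 = 1 := by simp [Hex]
theorem w3 : Hex.w e3 = 3 := by simp [Hex]
theorem w4 : Hex.w e4 = 3 := by simp [Hex]

theorem deg_eq (v : Fin 5) : Hex.deg v = ∑ e ∈ Hex.E, if v ∈ e then Hex.w e else 0 := by
  unfold WHyp.deg; rw [Finset.sum_filter]

theorem deg0 : Hex.deg 0 = 2 := by
  rw [deg_eq, sum_E, w1, w2, w3, w4]; simp [e1, e2, e3, e4]; norm_num
theorem deg1 : Hex.deg 1 = 4 := by
  rw [deg_eq, sum_E, w1, w2, w3, w4]; simp [e1, e2, e3, e4]; norm_num
theorem deg2 : Hex.deg 2 = 1 := by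
  rw [deg_eq, sum_E, w1, w2, w3, w4]; simp [e1, e2, e3, e4]
theorem deg3 : Hex.deg 3 = 8 := by
  rw [deg_eq, sum_E, w1, w2, w3, w4]; simp [e1, e2, e3, e4]; norm_num
theorem deg4 : Hex.deg 4 = 3 := by
  rw [deg_eq, sum_E, w1, w2, w3, w4]; simp [e1, e2, e3, e4]

theorem nv0 (f : Fin 5 → ℝ) : Hex.nv f 0 = f 0 / 2 := by rw [WHyp.nv, deg0]
theorem nv1 (f : Fin 5 → ℝ) : Hex.nv f 1 = f 1 / 4 := by rw [WHyp.nv, deg1]
theorem nv2 (f : Fin 5 → ℝ) : Hex.nv f 2 = f 2 := by rw [WHyp.nv, deg2]; simp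
theorem nv3 (f : Fin 5 → ℝ) : Hex.nv f 3 = f 3 / 8 := by rw [WHyp.nv, deg3]
theorem nv4 (f : Fin 5 → ℝ) : Hex.nv f 4 = f 4 / 3 := by rw [WHyp.nv, deg4]

theorem adj_iff (x y : Fin 5) : Hex.graph.Adj x y ↔ x ≠ y ∧ ∃ e ∈ Hex.E, x ∈ e ∧ y ∈ e := Iff.rfl

theorem adj01 : Hex.graph.Adj 0 1 := by
  rw [adj_iff]; decide

theorem me1 : e1 ∈ Hex.E := by decide
theorem me2 : e2 ∈ Hex.E := by decide
theorem me3 : e3 ∈ Hex.E := by decide
theorem me4 : e4 ∈ Hex.E := by decide

theorem adj_of {u v : Fin 5} {e : Finset (Fin 5)} (he : e ∈ Hex.E) (hu : u ∈ e) (hv : v ∈ e)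
    (hne : u ≠ v) : Hex.graph.Adj u v := ⟨hne, e, he, hu, hv⟩

theorem adj02 : Hex.graph.Adj 0 2 := adj_of me1 (by decide) (by decide) (by decide)
theorem adj03 : Hex.graph.Adj 0 3 := adj_of me1 (by decide) (by decide) (by decide)
theorem adj34 : Hex.graph.Adj 3 4 := adj_of me4 (by decide) (by decide) (by decide)

theorem connected : Hex.graph.Connected := by
  have h0 : ∀ v : Fin 5, Hex.graph.Reachable 0 v := by
    intro v
    fin_cases v
    · exact SimpleGraph.Reachable.refl _
    · exact adj01.reachable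
    · exact adj02.reachable
    · exact adj03.reachable
    · exact adj03.reachable.trans adj34.reachable
  exact ⟨fun u v => (h0 u).symm.trans (h0 v)⟩

theorem d_of_adj {u v : Fin 5} (h : Hex.graph.Adj u v) : Hex.d u v = 1 := by
  unfold WHyp.d
  rw [SimpleGraph.dist_eq_one_iff_adj.2 h]; norm_num

theorem d01 : Hex.d 0 1 = 1 := d_of_adj adj01

theorem lip_edge {f : Fin 5 → ℝ} (hf : f ∈ Hex.Lip) {e : Finset (Fin 5)} (he : e ∈ Hex.E)
    {u v : Fin 5} (hu : u ∈ e) (hv : v ∈ e) : Hex.nv f u - Hex.nv f v ≤ 1 := by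
  by_cases huv : u = v
  · subst huv; simp
  · have := hf u v
    rw [ip_dd, d_of_adj (adj_of he hu hv huv)] at this
    exact this

theorem lip_of_edges {f : Fin 5 → ℝ} (hf : ∀ e ∈ Hex.E, ∀ u ∈ e, ∀ v ∈ e,
    Hex.nv f u - Hex.nv f v ≤ 1) : f ∈ Hex.Lip := by
  intro x y
  rw [ip_dd]
  obtain ⟨p, hp⟩ := connected.exists_walk_length_eq_dist x y
  unfold WHyp.d
  rw [← hp]
  clear hp
  induction p with
  | nil => simp
  | cons h p ih =>
    have h' := h
    obtain ⟨_, e, he, hu, hv⟩ := h'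
    have := hf e he _ hu _ hv
    simp only [SimpleGraph.Walk.length_cons, Nat.cast_add, Nat.cast_one]
    linarith

theorem nv_add (f g : Fin 5 → ℝ) (t : ℝ) (v : Fin 5) :
    Hex.nv (f + t • g) v = Hex.nv f v + t * Hex.nv g v := by
  simp only [nv, Pi.add_apply, Pi.smul_apply, smul_eq_mul]; ring

/-- values of an element of the Laplacian -/
theorem lap_vals {g h : Fin 5 → ℝ} {b : Finset (Fin 5) → Fin 5 → ℝ}
    (hb : ∀ e ∈ Hex.E, Hex.IsArgmax g e (b e))
    (hh : h = ∑ e ∈ Hex.E, (Hex.w e * Hex.ip g (b e)) • b e) :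
    Hex.nv h 0 = (Hex.ip g (b e1) * b e1 0 + Hex.ip g (b e2) * b e2 0) / 2 ∧
    Hex.nv h 1 = (Hex.ip g (b e2) * b e2 1 + 3 * (Hex.nv g 1 - Hex.nv g 3)) / 4 ∧
    Hex.nv h 2 = Hex.ip g (b e1) * b e1 2 ∧
    Hex.nv h 3 = (Hex.ip g (b e1) * b e1 3 + Hex.ip g (b e2) * b e2 3
      + 3 * (Hex.nv g 3 - Hex.nv g 1) + 3 * (Hex.nv g 3 - Hex.nv g 4)) / 8 ∧
    Hex.nv h 4 = Hex.nv g 4 - Hex.nv g 3 := by
  have hv : ∀ v, h v = Hex.ip g (b e1) * b e1 v + (Hex.ip g (b e2) * b e2 v +
      (3 * (Hex.ip g (b e3) * b e3 v) + 3 * (Hex.ip g (b e4) * b e4 v))) := by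
    intro v
    rw [hh, sum_E, w1, w2, w3, w4]
    simp only [Pi.add_apply, Pi.smul_apply, smul_eq_mul]
    ring
  have p3 := pair_of (H := Hex) (p := (1 : Fin 5)) (q := 3) (by decide) (hb e3 me3)
  have p4 := pair_of (H := Hex) (p := (3 : Fin 5)) (q := 4) (by decide) (hb e4 me4)
  have z1 : ∀ v, v ∉ e1 → b e1 v = 0 := fun v hv => B_zero (hb e1 me1).1 hv
  have z2 : ∀ v, v ∉ e2 → b e2 v = 0 := fun v hv => B_zero (hb e2 me2).1 hv
  have z3 : ∀ v, v ∉ e3 → b e3 v = 0 := fun v hv => B_zero (hb e3 me3).1 hv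
  have z4 : ∀ v, v ∉ e4 → b e4 v = 0 := fun v hv => B_zero (hb e4 me4).1 hv
  refine ⟨?_, ?_, ?_, ?_, ?_⟩
  · rw [nv0, hv, z3 0 (by decide), z4 0 (by decide)]; ring
  · rw [nv1, hv, z1 1 (by decide), z4 1 (by decide), p3.1]; ring
  · rw [nv2, hv, z2 2 (by decide), z3 2 (by decide), z4 2 (by decide)]; ring
  · rw [nv3, hv, p3.2.1, p4.1]; ring
  · rw [nv4, hv, z1 4 (by decide), z2 4 (by decide), z3 4 (by decide), p4.2.1]; ring

/-- upper bound for the Kantorovich difference -/
theorem K_upper {l : ℝ} (hl0 : 0 < l) (hl : l ≤ 1/10) {f g : Fin 5 → ℝ} (hf : f ∈ Hex.Lip)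
    (hg : Hex.IsResolvent l f g) : Hex.ip g (dd 0 1) ≤ 1 - 5 / 8 * l + l ^ 2 := by
  obtain ⟨h, ⟨b, hb, hh⟩, hfg⟩ := hg
  obtain ⟨h0, h1, h2, h3, h4⟩ := lap_vals hb hh
  have T1 := tri_of (H := Hex) (p := (0 : Fin 5)) (q := 2) (r := 3) (by decide) (by decide)
    (by decide) (hb e1 me1)
  have T2 := tri_of (H := Hex) (p := (0 : Fin 5)) (q := 1) (r := 3) (by decide) (by decide)
    (by decide) (hb e2 me2)
  obtain ⟨p31, p32, p33, p34, p35⟩ :=
    pair_of (H := Hex) (p := (1 : Fin 5)) (q := 3) (by decide) (hb e3 me3)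
  obtain ⟨p41, p42, p43, p44, p45⟩ :=
    pair_of (H := Hex) (p := (3 : Fin 5)) (q := 4) (by decide) (hb e4 me4)
  have hF : ∀ v, Hex.nv f v = Hex.nv g v + l * Hex.nv h v := by
    intro v; rw [hfg, nv_add]
  rw [ip_dd]
  set D : ℝ := max (max (Hex.ip g (b e1)) (Hex.ip g (b e2)))
    (max (Hex.ip g (b e3)) (Hex.ip g (b e4))) with hD
  have d1 : Hex.ip g (b e1) ≤ D := le_trans (le_max_left _ _) (le_max_left _ _)
  have d2 : Hex.ip g (b e2) ≤ D := le_trans (le_max_right _ _) (le_max_left _ _)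
  have d3 : Hex.ip g (b e3) ≤ D := le_trans (le_max_left _ _) (le_max_right _ _)
  have d4 : Hex.ip g (b e4) ≤ D := le_trans (le_max_right _ _) (le_max_right _ _)
  have hH : ∀ v, |Hex.nv h v| ≤ D := by
    have t1 := T1.pI; have t2 := T1.qI; have t3 := T1.rI; have t4 := T1.pI'
    have t5 := T1.qI'; have t6 := T1.rI'
    have s1 := T2.pI; have s2 := T2.qI; have s3 := T2.rI; have s4 := T2.pI'
    have s5 := T2.qI'; have s6 := T2.rI'
    intro v
    rw [abs_le]
    fin_cases v
    · change -D ≤ Hex.nv h 0 ∧ Hex.nv h 0 ≤ D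
      rw [h0]; constructor <;> linarith
    · change -D ≤ Hex.nv h 1 ∧ Hex.nv h 1 ≤ D
      rw [h1]; constructor <;> linarith
    · change -D ≤ Hex.nv h 2 ∧ Hex.nv h 2 ≤ D
      rw [h2]; constructor <;> linarith
    · change -D ≤ Hex.nv h 3 ∧ Hex.nv h 3 ≤ D
      rw [h3]; constructor <;> linarith
    · change -D ≤ Hex.nv h 4 ∧ Hex.nv h 4 ≤ D
      rw [h4]; constructor <;> linarith
  have hI : ∀ e ∈ Hex.E, Hex.ip g (b e) ≤ 1 + 2 * (l * D) := by
    intro e he
    obtain ⟨s, hs, t, ht, hst⟩ := attained (Hex.nonempty_of_mem e he) (hb e he)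
    have h5 := lip_edge hf he hs ht
    rw [hF, hF] at h5
    have h6 := abs_le.1 (hH s)
    have h7 := abs_le.1 (hH t)
    have h8 : l * (-D) ≤ l * Hex.nv h s := mul_le_mul_of_nonneg_left h6.1 hl0.le
    have h9 : l * Hex.nv h t ≤ l * D := mul_le_mul_of_nonneg_left h7.2 hl0.le
    linarith
  have hD1 : D ≤ 1 + 2 * (l * D) :=
    max_le (max_le (hI _ me1) (hI _ me2)) (max_le (hI _ me3) (hI _ me4))
  have hD2 : D ≤ 1 + 4 * l := by
    by_contra hcon
    push Not at hcon
    nlinarith
  have f01 := lip_edge hf me2 (u := 0) (v := 1) (by decide) (by decide)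
  have f23 := lip_edge hf me1 (u := 2) (v := 3) (by decide) (by decide)
  have f31 := lip_edge hf me3 (u := 3) (v := 1) (by decide) (by decide)
  rw [hF, hF, h0, h1] at f01
  rw [hF, hF, h2, h3] at f23
  rw [hF, hF, h3, h1] at f31
  exact core hl0 hl T1 T2 f01 f23 f31 (by linarith) (by linarith) d1 hD2

/-- a generator attaining the oscillation is a maximiser -/
theorem argmax_dd {g : Fin 5 → ℝ} {e : Finset (Fin 5)} {s t : Fin 5} (hs : s ∈ e) (ht : t ∈ e)
    (hmax : ∀ u ∈ e, ∀ v ∈ e, Hex.nv g u - Hex.nv g v ≤ Hex.nv g s - Hex.nv g t) :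
    Hex.IsArgmax g e (dd s t) := by
  refine ⟨dd_mem_B hs ht, fun b' hb' => ?_⟩
  rw [ip_dd, ip_eq]
  exact B_le _ _ hmax hb'

/-- a choice of one vector for each hyperedge -/
def pick (a1 a2 a3 a4 : Fin 5 → ℝ) (e : Finset (Fin 5)) : Fin 5 → ℝ :=
  if e = e1 then a1 else if e = e2 then a2 else if e = e3 then a3 else a4

theorem pick1 (a1 a2 a3 a4 : Fin 5 → ℝ) : pick a1 a2 a3 a4 e1 = a1 := if_pos rfl
theorem pick2 (a1 a2 a3 a4 : Fin 5 → ℝ) : pick a1 a2 a3 a4 e2 = a2 := by
  unfold pick; rw [if_neg (by decide)]; exact if_pos rfl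
theorem pick3 (a1 a2 a3 a4 : Fin 5 → ℝ) : pick a1 a2 a3 a4 e3 = a3 := by
  unfold pick; rw [if_neg (by decide), if_neg (by decide)]; exact if_pos rfl
theorem pick4 (a1 a2 a3 a4 : Fin 5 → ℝ) : pick a1 a2 a3 a4 e4 = a4 := by
  unfold pick; rw [if_neg (by decide), if_neg (by decide), if_neg (by decide)]

/-- the function with prescribed normalised values -/
noncomputable def mk (a0 a1 a2 a3 a4 : ℝ) : Fin 5 → ℝ :=
  ![2 * a0, 4 * a1, a2, 8 * a3, 3 * a4]

theorem nv_mk0 (a0 a1 a2 a3 a4 : ℝ) : Hex.nv (mk a0 a1 a2 a3 a4) 0 = a0 := by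
  rw [nv0]; simp [mk]
theorem nv_mk1 (a0 a1 a2 a3 a4 : ℝ) : Hex.nv (mk a0 a1 a2 a3 a4) 1 = a1 := by
  rw [nv1]; simp [mk]
theorem nv_mk2 (a0 a1 a2 a3 a4 : ℝ) : Hex.nv (mk a0 a1 a2 a3 a4) 2 = a2 := by
  rw [nv2]; simp [mk]
theorem nv_mk3 (a0 a1 a2 a3 a4 : ℝ) : Hex.nv (mk a0 a1 a2 a3 a4) 3 = a3 := by
  rw [nv3]; simp [mk]
theorem nv_mk4 (a0 a1 a2 a3 a4 : ℝ) : Hex.nv (mk a0 a1 a2 a3 a4) 4 = a4 := by
  rw [nv4]; simp [mk]

theorem lip_of {f : Fin 5 → ℝ}
    (h02 : |Hex.nv f 0 - Hex.nv f 2| ≤ 1) (h03 : |Hex.nv f 0 - Hex.nv f 3| ≤ 1)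
    (h23 : |Hex.nv f 2 - Hex.nv f 3| ≤ 1) (h01 : |Hex.nv f 0 - Hex.nv f 1| ≤ 1)
    (h13 : |Hex.nv f 1 - Hex.nv f 3| ≤ 1) (h34 : |Hex.nv f 3 - Hex.nv f 4| ≤ 1) :
    f ∈ Hex.Lip := by
  rw [abs_le] at *
  apply lip_of_edges
  intro e he u hu v hv
  change e ∈ ({e1, e2, e3, e4} : Finset (Finset (Fin 5))) at he
  simp only [Finset.mem_insert, Finset.mem_singleton] at he
  rcases he with rfl | rfl | rfl | rfl
  · simp only [e1, Finset.mem_insert, Finset.mem_singleton] at hu hv
    rcases hu with rfl | rfl | rfl <;> rcases hv with rfl | rfl | rfl <;> linarith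
  · simp only [e2, Finset.mem_insert, Finset.mem_singleton] at hu hv
    rcases hu with rfl | rfl | rfl <;> rcases hv with rfl | rfl | rfl <;> linarith
  · simp only [e3, Finset.mem_insert, Finset.mem_singleton] at hu hv
    rcases hu with rfl | rfl <;> rcases hv with rfl | rfl <;> linarith
  · simp only [e4, Finset.mem_insert, Finset.mem_singleton] at hu hv
    rcases hu with rfl | rfl <;> rcases hv with rfl | rfl <;> linarith

/-- lower bound for the Kantorovich difference -/
theorem K_lower {l : ℝ} (hl0 : 0 < l) (hl : l ≤ 1/10) :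
    ∃ f ∈ Hex.Lip, ∃ g, Hex.IsResolvent l f g ∧ 1 - 5 / 8 * l = Hex.ip g (dd 0 1) := by
  set a : ℝ := 1 - 5 / 8 * l with ha
  set c : ℝ := 1 - 5 / 4 * l with hc
  have ha0 : 0 < a := by rw [ha]; linarith
  have hc0 : 0 < c := by rw [hc]; linarith
  set g : Fin 5 → ℝ := mk a 0 a 0 (-c) with hg
  have g0 : Hex.nv g 0 = a := nv_mk0 _ _ _ _ _
  have g1 : Hex.nv g 1 = 0 := nv_mk1 _ _ _ _ _
  have g2 : Hex.nv g 2 = a := nv_mk2 _ _ _ _ _
  have g3 : Hex.nv g 3 = 0 := nv_mk3 _ _ _ _ _
  have g4 : Hex.nv g 4 = -c := nv_mk4 _ _ _ _ _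
  -- the maximisers
  have m1a : Hex.IsArgmax g e1 (dd 0 3) := by
    apply argmax_dd (by decide) (by decide)
    intro u hu v hv
    simp only [e1, Finset.mem_insert, Finset.mem_singleton] at hu hv
    rcases hu with rfl | rfl | rfl <;> rcases hv with rfl | rfl | rfl <;>
      simp only [g0, g2, g3] <;> linarith
  have m1b : Hex.IsArgmax g e1 (dd 2 3) := by
    apply argmax_dd (by decide) (by decide)
    intro u hu v hv
    simp only [e1, Finset.mem_insert, Finset.mem_singleton] at hu hv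
    rcases hu with rfl | rfl | rfl <;> rcases hv with rfl | rfl | rfl <;>
      simp only [g0, g2, g3] <;> linarith
  have m1 : Hex.IsArgmax g e1 (dd 0 3 + (3/4 : ℝ) • (dd 2 3 - dd 0 3)) := by
    refine ⟨B_convex_comb m1a.1 m1b.1 (by norm_num) (by norm_num), fun b' hb' => ?_⟩
    have := m1a.2 b' hb'
    rw [ip_add_right, ip_smul_right, ip_sub_right]
    have h5 : Hex.ip g (dd 2 3) = Hex.ip g (dd 0 3) := by
      rw [ip_dd, ip_dd, g0, g2]
    rw [h5]; linarith
  have m2 : Hex.IsArgmax g e2 (dd 0 3) := by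
    apply argmax_dd (by decide) (by decide)
    intro u hu v hv
    simp only [e2, Finset.mem_insert, Finset.mem_singleton] at hu hv
    rcases hu with rfl | rfl | rfl <;> rcases hv with rfl | rfl | rfl <;>
      simp only [g0, g1, g3] <;> linarith
  have m3 : Hex.IsArgmax g e3 (dd 1 3) := by
    apply argmax_dd (by decide) (by decide)
    intro u hu v hv
    simp only [e3, Finset.mem_insert, Finset.mem_singleton] at hu hv
    rcases hu with rfl | rfl <;> rcases hv with rfl | rfl <;>
      simp only [g1, g3] <;> linarith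
  have m4 : Hex.IsArgmax g e4 (dd 3 4) := by
    apply argmax_dd (by decide) (by decide)
    intro u hu v hv
    simp only [e4, Finset.mem_insert, Finset.mem_singleton] at hu hv
    rcases hu with rfl | rfl <;> rcases hv with rfl | rfl <;>
      simp only [g3, g4] <;> linarith
  set b : Finset (Fin 5) → Fin 5 → ℝ :=
    pick (dd 0 3 + (3/4 : ℝ) • (dd 2 3 - dd 0 3)) (dd 0 3) (dd 1 3) (dd 3 4) with hbdef
  have b1 : b e1 = dd 0 3 + (3/4 : ℝ) • (dd 2 3 - dd 0 3) := pick1 _ _ _ _
  have b2 : b e2 = dd 0 3 := pick2 _ _ _ _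
  have b3 : b e3 = dd 1 3 := pick3 _ _ _ _
  have b4 : b e4 = dd 3 4 := pick4 _ _ _ _
  have hb : ∀ e ∈ Hex.E, Hex.IsArgmax g e (b e) := by
    intro e he
    change e ∈ ({e1, e2, e3, e4} : Finset (Finset (Fin 5))) at he
    simp only [Finset.mem_insert, Finset.mem_singleton] at he
    rcases he with rfl | rfl | rfl | rfl
    · rw [b1]; exact m1
    · rw [b2]; exact m2
    · rw [b3]; exact m3
    · rw [b4]; exact m4
  set h : Fin 5 → ℝ := ∑ e ∈ Hex.E, (Hex.w e * Hex.ip g (b e)) • b e with hh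
  obtain ⟨h0, h1, h2, h3, h4⟩ := lap_vals hb hh
  have i1 : Hex.ip g (b e1) = a := by
    rw [b1, ip_add_right, ip_smul_right, ip_sub_right, ip_dd, ip_dd, g0, g2, g3]; ring
  have i2 : Hex.ip g (b e2) = a := by rw [b2, ip_dd, g0, g3]; ring
  have v10 : b e1 0 = 1/4 := by rw [b1]; simp [dd]; norm_num
  have v12 : b e1 2 = 3/4 := by rw [b1]; simp [dd]
  have v13 : b e1 3 = -1 := by rw [b1]; simp [dd]
  have v20 : b e2 0 = 1 := by rw [b2]; simp [dd]
  have v21 : b e2 1 = 0 := by rw [b2]; simp [dd]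
  have v23 : b e2 3 = -1 := by rw [b2]; simp [dd]
  rw [i1, i2, v10, v20] at h0
  rw [i2, v21, g1, g3] at h1
  rw [i1, v12] at h2
  rw [i1, i2, v13, v23, g1, g3, g4] at h3
  rw [g3, g4] at h4
  have k0 : Hex.nv (g + l • h) 0 = a + l * (5 / 8 * a) := by rw [nv_add, g0, h0]; ring
  have k1 : Hex.nv (g + l • h) 1 = 0 := by rw [nv_add, g1, h1]; ring
  have k2 : Hex.nv (g + l • h) 2 = a + l * (3 / 4 * a) := by rw [nv_add, g2, h2]; ring
  have k3 : Hex.nv (g + l • h) 3 = l * ((3 * c - 2 * a) / 8) := by rw [nv_add, g3, h3]; ring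
  have k4 : Hex.nv (g + l • h) 4 = - c - l * c := by rw [nv_add, g4, h4]; ring
  refine ⟨g + l • h, ?_, g, ⟨h, ⟨b, hb, hh⟩, rfl⟩, ?_⟩
  · have l2 : 0 < l ^ 2 := by positivity
    have l2' : l ^ 2 ≤ l / 10 := by nlinarith
    apply lip_of
    · rw [k0, k2, ha, abs_le]; clear_value a c; clear * - l2 l2' hl hl0; constructor <;> linarith
    · rw [k0, k3, ha, hc, abs_le]; clear_value a c; clear * - l2 l2' hl hl0; constructor <;> linarith
    · rw [k2, k3, ha, hc, abs_le]; clear_value a c; clear * - l2 l2' hl hl0; constructor <;> linarith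
    · rw [k0, k1, ha, abs_le]; clear_value a c; clear * - l2 l2' hl hl0; constructor <;> linarith
    · rw [k1, k3, ha, hc, abs_le]; clear_value a c; clear * - l2 l2' hl hl0; constructor <;> linarith
    · rw [k3, k4, ha, hc, abs_le]; clear_value a c; clear * - l2 l2' hl hl0; constructor <;> linarith
  · rw [ip_dd, g0, g1]; ring

theorem K_bounds {l : ℝ} (hl0 : 0 < l) (hl : l ≤ 1/10) :
    1 - 5 / 8 * l ≤ Hex.K l 0 1 ∧ Hex.K l 0 1 ≤ 1 - 5 / 8 * l + l ^ 2 := by
  have hup : ∀ r ∈ {r | ∃ f ∈ Hex.Lip, ∃ g, Hex.IsResolvent l f g ∧ r = Hex.ip g (dd 0 1)},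
      r ≤ 1 - 5 / 8 * l + l ^ 2 := by
    rintro r ⟨f, hf, g, hg, rfl⟩
    exact K_upper hl0 hl hf hg
  constructor
  · exact le_csSup ⟨_, hup⟩ (K_lower hl0 hl)
  · exact csSup_le ⟨_, K_lower hl0 hl⟩ hup

theorem curvature : Hex.IsCurvature 0 1 (5 / 8) := by
  unfold WHyp.IsCurvature
  have hev : ∀ᶠ l : ℝ in 𝓝[>] 0, 0 < l ∧ l ≤ 1/10 := by
    have h1 : ∀ᶠ l : ℝ in 𝓝[>] 0, 0 < l := eventually_mem_nhdsWithin
    have h2 : ∀ᶠ l : ℝ in 𝓝[>] 0, l < 1/10 :=
      (eventually_lt_nhds (by norm_num)).filter_mono nhdsWithin_le_nhds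
    filter_upwards [h1, h2] with l h1 h2
    exact ⟨h1, h2.le⟩
  have hlow : Tendsto (fun l : ℝ => 5 / 8 - l) (𝓝[>] 0) (𝓝 (5 / 8)) := by
    have : Tendsto (fun l : ℝ => 5 / 8 - l) (𝓝 0) (𝓝 (5 / 8 - 0)) :=
      tendsto_const_nhds.sub tendsto_id
    rw [sub_zero] at this
    exact this.mono_left nhdsWithin_le_nhds
  refine tendsto_of_tendsto_of_tendsto_of_le_of_le' hlow tendsto_const_nhds ?_ ?_
  · filter_upwards [hev] with l hl
    obtain ⟨h1, h2⟩ := K_bounds hl.1 hl.2
    rw [d01, div_one, one_div, ← div_eq_inv_mul, le_div_iff₀ hl.1]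
    nlinarith [hl.1]
  · filter_upwards [hev] with l hl
    obtain ⟨h1, h2⟩ := K_bounds hl.1 hl.2
    rw [d01, div_one, one_div, ← div_eq_inv_mul, div_le_iff₀ hl.1]
    linarith

theorem ip_tri {h b : Fin 5 → ℝ} {p q r : Fin 5} (hpq : p ≠ q) (hpr : p ≠ r) (hqr : q ≠ r)
    (hb : b ∈ B ({p, q, r} : Finset (Fin 5))) :
    Hex.ip h b = Hex.nv h p * b p + Hex.nv h q * b q + Hex.nv h r * b r := by
  rw [ip_eq]
  have h2 : ∑ v ∈ ({p, q, r} : Finset (Fin 5)), Hex.nv h v * b v = ∑ v, Hex.nv h v * b v := by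
    apply Finset.sum_subset (Finset.subset_univ _)
    intro v _ hv
    rw [B_zero hb hv, mul_zero]
  rw [← h2, Finset.sum_insert (by simp [hpq, hpr]), Finset.sum_insert (by simp [hqr]),
    Finset.sum_singleton]
  ring

/-- lower bound for `𝒞(x,y)` -/
theorem C_lower {f h : Fin 5 → ℝ} (hf : f ∈ Hex.LipXY 0 1) (hh0 : Hex.IsLap0 f h) :
    2 / 3 ≤ Hex.ip h (dd 0 1) := by
  obtain ⟨hlip, hxy⟩ := hf
  obtain ⟨⟨b, hb, hh⟩, hmin⟩ := hh0
  obtain ⟨h0, h1, h2, h3, h4⟩ := lap_vals hb hh
  have T1 := tri_of (H := Hex) (p := (0 : Fin 5)) (q := 2) (r := 3) (by decide) (by decide)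
    (by decide) (hb e1 me1)
  have T2 := tri_of (H := Hex) (p := (0 : Fin 5)) (q := 1) (r := 3) (by decide) (by decide)
    (by decide) (hb e2 me2)
  rw [ip_dd, d01] at hxy
  rw [ip_dd]
  have f03 := lip_edge hlip me2 (u := 0) (v := 3) (by decide) (by decide)
  have f31 := lip_edge hlip me2 (u := 3) (v := 1) (by decide) (by decide)
  have f23 := lip_edge hlip me1 (u := 2) (v := 3) (by decide) (by decide)
  have f43 := lip_edge hlip me4 (u := 4) (v := 3) (by decide) (by decide)
  have hopt : ∀ c : Fin 5 → ℝ, Hex.IsArgmax f e1 c →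
      0 ≤ Hex.ip f (b e1) * Hex.ip h c - (Hex.nv h 0 * (Hex.ip f (b e1) * b e1 0)
        + Hex.nv h 2 * (Hex.ip f (b e1) * b e1 2) + Hex.nv h 3 * (Hex.ip f (b e1) * b e1 3)) := by
    intro c hc
    have := opt Hex hb hh hmin me1 hc
    rw [w1, ip_tri (h := h) (p := (0 : Fin 5)) (q := 2) (r := 3) (by decide) (by decide)
      (by decide) (hb e1 me1).1] at this
    linarith
  generalize hF0 : Hex.nv f 0 = F0 at *
  generalize hF1 : Hex.nv f 1 = F1 at *
  generalize hF2 : Hex.nv f 2 = F2 at *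
  generalize hF3 : Hex.nv f 3 = F3 at *
  generalize hF4 : Hex.nv f 4 = F4 at *
  generalize hI1 : Hex.ip f (b e1) = I1 at *
  generalize hI2 : Hex.ip f (b e2) = I2 at *
  generalize hax : I1 * b e1 0 = ax at *
  generalize ha2 : I1 * b e1 2 = a2 at *
  generalize ha3 : I1 * b e1 3 = a3 at *
  generalize hcx : I2 * b e2 0 = cx at *
  generalize hcy : I2 * b e2 1 = cy at *
  generalize hc3 : I2 * b e2 3 = c3 at *
  rcases eq_or_lt_of_le (show F1 ≤ F3 by linarith) with ht | ht
  · -- t = 0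
    have hcx' := T2.up (by linarith) (by linarith)
    have hI2' := T2.e1 (by linarith) (by linarith)
    have hcy' := T2.q1 (by linarith)
    rcases eq_or_lt_of_le (show F2 ≤ F0 by linarith) with hs | hs
    · have hI1' := T1.e1 (by linarith) (by linarith)
      have ha3' := T1.dr (by linarith) (by linarith)
      have hs0 := T1.sum0
      have ha2' := T1.q4 (by linarith)
      have harg : Hex.IsArgmax f e1 (dd 0 3) := by
        apply argmax_dd (by decide) (by decide)
        intro u hu v hv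
        simp only [e1, Finset.mem_insert, Finset.mem_singleton] at hu hv
        rcases hu with rfl | rfl | rfl <;> rcases hv with rfl | rfl | rfl <;>
          simp only [hF0, hF2, hF3] <;> linarith
      have ho := hopt _ harg
      rw [ip_dd] at ho
      have hI1'' : I1 = 1 := by linarith
      have hax'' : ax = 1 - a2 := by linarith
      have ha3'' : a3 = -1 := by linarith
      rw [hI1'', hax'', ha3''] at ho
      rw [hax''] at h0
      have hcx'' : cx = 1 := by linarith
      rw [hcx''] at h0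
      have ho2 : 0 ≤ a2 * (Hex.nv h 0 - Hex.nv h 2) := by
        have e : 1 * (Hex.nv h 0 - Hex.nv h 3) - (Hex.nv h 0 * (1 - a2) + Hex.nv h 2 * a2
            + Hex.nv h 3 * -1) = a2 * (Hex.nv h 0 - Hex.nv h 2) := by ring
        linarith
      have hle : a2 ≤ 2 / 3 := by
        by_contra hcon
        push Not at hcon
        have hneg : Hex.nv h 0 - Hex.nv h 2 < 0 := by
          rw [h0, h2]; linarith
        have : a2 * (Hex.nv h 0 - Hex.nv h 2) < 0 := mul_neg_of_pos_of_neg (by linarith) hneg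
        linarith
      rw [h0, h1]
      linarith
    · have hax' := T1.up (by linarith) (by linarith)
      have := T1.PR
      rw [h0, h1]
      linarith
  · have hcy' := T2.dq (by linarith) (by linarith)
    rcases eq_or_lt_of_le (show F3 ≤ F0 by linarith) with hs | hs
    · -- t = 1
      have hI2' := T2.e2 (by linarith) (by linarith)
      have hs2 := T2.sum0
      have hc3' := T2.r4 (by linarith)
      by_contra hcon
      push Not at hcon
      have hneg : Hex.nv h 0 < 0 := by rw [h1] at hcon; linarith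
      have hcx0 : 0 ≤ cx := T2.p3 (by linarith)
      have haxn : ax < 0 := by rw [h0] at hneg; linarith
      have hF2 : F0 < F2 := by
        by_contra hc
        push Not at hc
        rcases eq_or_lt_of_le hc with hc | hc
        · have := T1.e1 (by linarith) (by linarith)
          have := T1.pI'
          linarith
        · have := T1.p3 hc
          linarith
      have ha2' := T1.uq (by linarith) (by linarith)
      have hI1' := T1.e3 (by linarith) (by linarith)
      have hs1 := T1.sum0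
      have harg : Hex.IsArgmax f e1 (dd 2 3) := by
        apply argmax_dd (by decide) (by decide)
        intro u hu v hv
        simp only [e1, Finset.mem_insert, Finset.mem_singleton] at hu hv
        rcases hu with rfl | rfl | rfl <;> rcases hv with rfl | rfl | rfl <;>
          simp only [*] <;> linarith
      have ho := hopt _ harg
      rw [ip_dd] at ho
      have ha3' : a3 = - I1 - ax := by linarith
      rw [ha2', ha3'] at ho
      have ho2 : 0 ≤ ax * (Hex.nv h 3 - Hex.nv h 0) := by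
        have e : I1 * (Hex.nv h 2 - Hex.nv h 3) - (Hex.nv h 0 * ax + Hex.nv h 2 * I1
            + Hex.nv h 3 * (- I1 - ax)) = ax * (Hex.nv h 3 - Hex.nv h 0) := by ring
        linarith
      have h5 : 0 < Hex.nv h 3 - Hex.nv h 0 := by
        rw [h3, h0]
        rw [h0] at hneg
        linarith
      have : ax * (Hex.nv h 3 - Hex.nv h 0) < 0 := mul_neg_of_neg_of_pos haxn h5
      linarith
    · have hcx' := T2.up (by linarith) (by linarith)
      have hI2' := T2.e2 (by linarith) (by linarith)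
      have hax' := T1.p4 (by linarith)
      rw [h0, h1]
      linarith

/-- a test function without ties, for which the Laplacian is single valued -/
noncomputable def f0 : Fin 5 → ℝ := mk 1 0 (3/4) (1/2) 0

theorem f0_mem : f0 ∈ Hex.LipXY 0 1 := by
  have k0 : Hex.nv f0 0 = 1 := nv_mk0 _ _ _ _ _
  have k1 : Hex.nv f0 1 = 0 := nv_mk1 _ _ _ _ _
  have k2 : Hex.nv f0 2 = 3/4 := nv_mk2 _ _ _ _ _
  have k3 : Hex.nv f0 3 = 1/2 := nv_mk3 _ _ _ _ _
  have k4 : Hex.nv f0 4 = 0 := nv_mk4 _ _ _ _ _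
  constructor
  · apply lip_of <;> simp only [k0, k1, k2, k3, k4] <;> rw [abs_le] <;> norm_num
  · rw [ip_dd, k0, k1, d01]; norm_num

theorem f0_vals {h : Fin 5 → ℝ} (hh : h ∈ Hex.lap f0) :
    h = mk (3/4) (-5/8) 0 (5/16) (-1/2) := by
  have k0 : Hex.nv f0 0 = 1 := nv_mk0 _ _ _ _ _
  have k1 : Hex.nv f0 1 = 0 := nv_mk1 _ _ _ _ _
  have k2 : Hex.nv f0 2 = 3/4 := nv_mk2 _ _ _ _ _
  have k3 : Hex.nv f0 3 = 1/2 := nv_mk3 _ _ _ _ _
  have k4 : Hex.nv f0 4 = 0 := nv_mk4 _ _ _ _ _
  obtain ⟨b, hb, hh⟩ := hh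
  obtain ⟨h0, h1, h2, h3, h4⟩ := lap_vals hb hh
  have T1 := tri_of (H := Hex) (p := (0 : Fin 5)) (q := 2) (r := 3) (by decide) (by decide)
    (by decide) (hb e1 me1)
  have T2 := tri_of (H := Hex) (p := (0 : Fin 5)) (q := 1) (r := 3) (by decide) (by decide)
    (by decide) (hb e2 me2)
  rw [k0, k2, k3] at T1
  rw [k0, k1, k3] at T2
  have a1 := T1.up (by norm_num) (by norm_num)
  have a2 := T1.dr (by norm_num) (by norm_num)
  have a3 := T1.e1 (by norm_num) (by norm_num)
  have a4 := T1.sum0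
  have c1 := T2.up (by norm_num) (by norm_num)
  have c2 := T2.dq (by norm_num) (by norm_num)
  have c3 := T2.e2 (by norm_num) (by norm_num)
  have c4 := T2.sum0
  rw [nv0] at h0
  rw [nv1] at h1
  rw [nv2] at h2
  rw [nv3] at h3
  rw [nv4] at h4
  rw [k0, k1, k2, k3, k4] at *
  funext v
  fin_cases v
  · change h 0 = mk (3/4) (-5/8) 0 (5/16) (-1/2) 0
    simp only [mk, Matrix.cons_val_zero]
    linarith
  · change h 1 = mk (3/4) (-5/8) 0 (5/16) (-1/2) 1
    simp only [mk, Matrix.cons_val_one, Matrix.cons_val_zero]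
    linarith
  · change h 2 = mk (3/4) (-5/8) 0 (5/16) (-1/2) 2
    simp only [mk, Matrix.cons_val]
    linarith
  · change h 3 = mk (3/4) (-5/8) 0 (5/16) (-1/2) 3
    simp only [mk, Matrix.cons_val]
    linarith
  · change h 4 = mk (3/4) (-5/8) 0 (5/16) (-1/2) 4
    simp only [mk, Matrix.cons_val]
    linarith

theorem f0_lap : ∃ h, Hex.IsLap0 f0 h := by
  have k0 : Hex.nv f0 0 = 1 := nv_mk0 _ _ _ _ _
  have k1 : Hex.nv f0 1 = 0 := nv_mk1 _ _ _ _ _
  have k2 : Hex.nv f0 2 = 3/4 := nv_mk2 _ _ _ _ _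
  have k3 : Hex.nv f0 3 = 1/2 := nv_mk3 _ _ _ _ _
  have k4 : Hex.nv f0 4 = 0 := nv_mk4 _ _ _ _ _
  have hmem : (∑ e ∈ Hex.E, (Hex.w e * Hex.ip f0 (pick (dd 0 3) (dd 0 1) (dd 3 1) (dd 3 4) e)) •
      pick (dd 0 3) (dd 0 1) (dd 3 1) (dd 3 4) e) ∈ Hex.lap f0 := by
    refine ⟨pick (dd 0 3) (dd 0 1) (dd 3 1) (dd 3 4), ?_, rfl⟩
    intro e he
    change e ∈ ({e1, e2, e3, e4} : Finset (Finset (Fin 5))) at he
    simp only [Finset.mem_insert, Finset.mem_singleton] at he
    rcases he with rfl | rfl | rfl | rfl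
    · rw [pick1]
      apply argmax_dd (by decide) (by decide)
      intro u hu v hv
      simp only [e1, Finset.mem_insert, Finset.mem_singleton] at hu hv
      rcases hu with rfl | rfl | rfl <;> rcases hv with rfl | rfl | rfl <;>
        simp only [k0, k2, k3] <;> norm_num
    · rw [pick2]
      apply argmax_dd (by decide) (by decide)
      intro u hu v hv
      simp only [e2, Finset.mem_insert, Finset.mem_singleton] at hu hv
      rcases hu with rfl | rfl | rfl <;> rcases hv with rfl | rfl | rfl <;>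
        simp only [k0, k1, k3] <;> norm_num
    · rw [pick3]
      apply argmax_dd (by decide) (by decide)
      intro u hu v hv
      simp only [e3, Finset.mem_insert, Finset.mem_singleton] at hu hv
      rcases hu with rfl | rfl <;> rcases hv with rfl | rfl <;>
        simp only [k1, k3] <;> norm_num
    · rw [pick4]
      apply argmax_dd (by decide) (by decide)
      intro u hu v hv
      simp only [e4, Finset.mem_insert, Finset.mem_singleton] at hu hv
      rcases hu with rfl | rfl <;> rcases hv with rfl | rfl <;>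
        simp only [k3, k4] <;> norm_num
  refine ⟨_, hmem, fun h' hh' => ?_⟩
  rw [f0_vals hh', f0_vals hmem]

theorem C_ge : 2 / 3 ≤ Hex.C 0 1 := by
  unfold WHyp.C
  rw [d01]
  have : 2 / 3 ≤ sInf {r | ∃ f ∈ Hex.LipXY 0 1, ∃ h, Hex.IsLap0 f h ∧ r = Hex.ip h (dd 0 1)} := by
    apply le_csInf
    · obtain ⟨h, hh⟩ := f0_lap
      exact ⟨_, f0, f0_mem, h, hh, rfl⟩
    · rintro r ⟨f, hf, h, hh, rfl⟩
      exact C_lower hf hh
  linarith

/-- **Disproof of the Laplacian formula for the IKTU curvature of hypergraphs.**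
There are a finite connected weighted hypergraph and two distinct vertices `x, y` whose IKTU
curvature `κ(x,y)` (the limit exists) is strictly smaller than `𝒞(x,y)`. -/
theorem result :
    ∃ (H : WHyp (Fin 5)) (x y : Fin 5), H.graph.Connected ∧ x ≠ y ∧
      ∃ κ : ℝ, H.IsCurvature x y κ ∧ κ < H.C x y :=
  ⟨Hex, 0, 1, connected, by decide, 5 / 8, curvature, lt_of_lt_of_le (by norm_num) C_ge⟩

end Pool.Agent.Results.MP_da7216_co.Disproof
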